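import Mathlib

/-!
# There is no universal countable projective algebra of plane sets

For every countable projective algebra `U` of subsets of the plane there is a plane set `S` such
that the projective algebra generated by `S`, which is countable, is not isomorphic to a subalgebra
of `U`.
-/

set_option autoImplicit false

namespace Pool.Agent.Results.MP_3db952_lc.NoUniversalAlgebra

open Set

/-- The Euclidean plane. -/
abbrev Plane : Type := ℝ × ℝ

/-- The axis `X`. -/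
def axisX : Set Plane := {p | p.2 = 0}

/-- The axis `Y`. -/
def axisY : Set Plane := {p | p.1 = 0}

/-- The projection to the axis `X`. -/
def proj1 (S : Set Plane) : Set Plane := {p | p.2 = 0 ∧ ∃ y : ℝ, (p.1, y) ∈ S}

/-- The projection to the axis `Y`. -/
def proj2 (S : Set Plane) : Set Plane := {p | p.1 = 0 ∧ ∃ x : ℝ, (x, p.2) ∈ S}

/-- The direct product of a subset `A` of the axis `X` and a subset `B` of the axis `Y`. -/
def tensor (A B : Set Plane) : Set Plane := {p | (p.1, (0 : ℝ)) ∈ A ∧ ((0 : ℝ), p.2) ∈ B}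

/-- Projective algebras of subsets of the plane. -/
structure IsProjectiveAlgebra (F : Set (Set Plane)) : Prop where
  empty_mem : ∅ ∈ F
  union_mem : ∀ A ∈ F, ∀ B ∈ F, A ∪ B ∈ F
  inter_mem : ∀ A ∈ F, ∀ B ∈ F, A ∩ B ∈ F
  compl_mem : ∀ A ∈ F, Aᶜ ∈ F
  proj1_mem : ∀ A ∈ F, proj1 A ∈ F
  proj2_mem : ∀ A ∈ F, proj2 A ∈ F
  tensor_mem : ∀ A ∈ F, ∀ B ∈ F, A ⊆ axisX → B ⊆ axisY → tensor A B ∈ F

/-- Isomorphism of projective algebras. -/
def Isomorphic (F G : Set (Set Plane)) : Prop :=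
  ∃ f : Set Plane → Set Plane, BijOn f F G ∧
    (∀ A ∈ F, ∀ B ∈ F, f (A ∪ B) = f A ∪ f B) ∧
    (∀ A ∈ F, ∀ B ∈ F, f (A ∩ B) = f A ∩ f B) ∧
    (∀ A ∈ F, f Aᶜ = (f A)ᶜ) ∧
    (∀ A ∈ F, f (proj1 A) = proj1 (f A)) ∧
    (∀ A ∈ F, f (proj2 A) = proj2 (f A)) ∧
    (∀ A ∈ F, ∀ B ∈ F, A ⊆ axisX → B ⊆ axisY → f (tensor A B) = tensor (f A) (f B))

/-- `F` embeds in `U`: it is isomorphic to a subalgebra of `U`. -/
def EmbedsIn (F U : Set (Set Plane)) : Prop :=
  ∃ G : Set (Set Plane), G ⊆ U ∧ IsProjectiveAlgebra G ∧ Isomorphic F G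

/-- The projective algebra generated by one set. -/
def generated (S : Set Plane) : Set (Set Plane) := ⋂₀ {F | IsProjectiveAlgebra F ∧ S ∈ F}

theorem isProjectiveAlgebra_generated (S : Set Plane) : IsProjectiveAlgebra (generated S) where
  empty_mem := fun _F hF => hF.1.empty_mem
  union_mem := fun A hA B hB F hF => hF.1.union_mem A (hA F hF) B (hB F hF)
  inter_mem := fun A hA B hB F hF => hF.1.inter_mem A (hA F hF) B (hB F hF)
  compl_mem := fun A hA F hF => hF.1.compl_mem A (hA F hF)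
  proj1_mem := fun A hA F hF => hF.1.proj1_mem A (hA F hF)
  proj2_mem := fun A hA F hF => hF.1.proj2_mem A (hA F hF)
  tensor_mem := fun A hA B hB h1 h2 F hF => hF.1.tensor_mem A (hA F hF) B (hB F hF) h1 h2

theorem mem_generated (S : Set Plane) : S ∈ generated S := fun _F hF => hF.2

/-- stages of the generation -/
def stage (S : Set Plane) : ℕ → Set (Set Plane)
  | 0 => {S, ∅}
  | n + 1 => stage S n ∪ (image2 (fun A B => A ∪ B) (stage S n) (stage S n) ∪
      (image2 (fun A B => A ∩ B) (stage S n) (stage S n) ∪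
      ((fun A => Aᶜ) '' stage S n ∪ (proj1 '' stage S n ∪ (proj2 '' stage S n ∪
        image2 tensor (stage S n) (stage S n))))))

theorem stage_mono (S : Set Plane) : Monotone (stage S) :=
  monotone_nat_of_le_succ fun _ => subset_union_left

theorem stage_countable (S : Set Plane) (n : ℕ) : (stage S n).Countable := by
  induction n with
  | zero => exact (countable_singleton _).insert _
  | succ n ih =>
    exact ih.union ((ih.image2 ih _).union ((ih.image2 ih _).union ((ih.image _).union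
      ((ih.image _).union ((ih.image _).union (ih.image2 ih _))))))

theorem isProjectiveAlgebra_stages (S : Set Plane) : IsProjectiveAlgebra (⋃ n, stage S n) := by
  have two : ∀ A ∈ ⋃ n, stage S n, ∀ B ∈ ⋃ n, stage S n, ∃ n, A ∈ stage S n ∧ B ∈ stage S n := by
    intro A hA B hB
    obtain ⟨n, hn⟩ := mem_iUnion.1 hA
    obtain ⟨m, hm⟩ := mem_iUnion.1 hB
    exact ⟨max n m, stage_mono S (le_max_left _ _) hn, stage_mono S (le_max_right _ _) hm⟩
  refine ⟨mem_iUnion.2 ⟨0, Or.inr rfl⟩, ?_, ?_, ?_, ?_, ?_, ?_⟩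
  · intro A hA B hB
    obtain ⟨n, h1, h2⟩ := two A hA B hB
    exact mem_iUnion.2 ⟨n + 1, Or.inr (Or.inl ⟨A, h1, B, h2, rfl⟩)⟩
  · intro A hA B hB
    obtain ⟨n, h1, h2⟩ := two A hA B hB
    exact mem_iUnion.2 ⟨n + 1, Or.inr (Or.inr (Or.inl ⟨A, h1, B, h2, rfl⟩))⟩
  · intro A hA
    obtain ⟨n, h1, -⟩ := two A hA A hA
    exact mem_iUnion.2 ⟨n + 1, Or.inr (Or.inr (Or.inr (Or.inl ⟨A, h1, rfl⟩)))⟩
  · intro A hA
    obtain ⟨n, h1, -⟩ := two A hA A hA
    exact mem_iUnion.2 ⟨n + 1, Or.inr (Or.inr (Or.inr (Or.inr (Or.inl ⟨A, h1, rfl⟩))))⟩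
  · intro A hA
    obtain ⟨n, h1, -⟩ := two A hA A hA
    exact mem_iUnion.2 ⟨n + 1, Or.inr (Or.inr (Or.inr (Or.inr (Or.inr (Or.inl ⟨A, h1, rfl⟩)))))⟩
  · intro A hA B hB _ _
    obtain ⟨n, h1, h2⟩ := two A hA B hB
    exact mem_iUnion.2 ⟨n + 1, Or.inr (Or.inr (Or.inr (Or.inr (Or.inr (Or.inr
      ⟨A, h1, B, h2, rfl⟩)))))⟩

theorem countable_generated (S : Set Plane) : (generated S).Countable := by
  refine (countable_iUnion (stage_countable S)).mono ?_
  exact sInter_subset_of_mem ⟨isProjectiveAlgebra_stages S, mem_iUnion.2 ⟨0, Or.inl rfl⟩⟩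

/-- the part of `T` outside of the axis `Y` -/
def off (T : Set Plane) : Set Plane := T ∩ (proj2 univ)ᶜ

/-- the sets that single out the rows and columns -/
def uv (T : Set Plane) : ℕ → Set Plane × Set Plane
  | 0 => (proj2 (off T), proj1 (off T))
  | n + 1 => (proj2 (tensor (uv T n).2 (uv T n).1 ∩ (off T)ᶜ),
      proj1 (off T ∩ tensor (uv T n).2 (proj2 (tensor (uv T n).2 (uv T n).1 ∩ (off T)ᶜ))))

/-- the terms that read off the coded set -/
def term (T : Set Plane) (n : ℕ) : Set Plane :=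
  (T ∩ proj2 univ) ∩ ((uv T n).1 ∩ ((uv T (n + 1)).1)ᶜ)

theorem uv_sub (T : Set Plane) (n : ℕ) : (uv T n).1 ⊆ axisY ∧ (uv T n).2 ⊆ axisX := by
  cases n with
  | zero => exact ⟨fun p hp => hp.1, fun p hp => hp.1⟩
  | succ n => exact ⟨fun p hp => hp.1, fun p hp => hp.1⟩

theorem univ_mem {F : Set (Set Plane)} (hF : IsProjectiveAlgebra F) : univ ∈ F := by
  rw [← compl_empty]
  exact hF.compl_mem _ hF.empty_mem

theorem off_mem {F : Set (Set Plane)} (hF : IsProjectiveAlgebra F) {T : Set Plane} (hT : T ∈ F) :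
    off T ∈ F :=
  hF.inter_mem _ hT _ (hF.compl_mem _ (hF.proj2_mem _ (univ_mem hF)))

theorem uv_mem {F : Set (Set Plane)} (hF : IsProjectiveAlgebra F) {T : Set Plane} (hT : T ∈ F)
    (n : ℕ) : (uv T n).1 ∈ F ∧ (uv T n).2 ∈ F := by
  have hH := off_mem hF hT
  induction n with
  | zero => exact ⟨hF.proj2_mem _ hH, hF.proj1_mem _ hH⟩
  | succ n ih =>
    have h1 := hF.tensor_mem _ ih.2 _ ih.1 (uv_sub T n).2 (uv_sub T n).1
    have h2 := hF.proj2_mem _ (hF.inter_mem _ h1 _ (hF.compl_mem _ hH))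
    refine ⟨h2, hF.proj1_mem _ (hF.inter_mem _ hH _ (hF.tensor_mem _ ih.2 _ h2 (uv_sub T n).2 ?_))⟩
    exact fun p hp => hp.1

theorem term_mem {F : Set (Set Plane)} (hF : IsProjectiveAlgebra F) {T : Set Plane} (hT : T ∈ F)
    (n : ℕ) : term T n ∈ F :=
  hF.inter_mem _ (hF.inter_mem _ hT _ (hF.proj2_mem _ (univ_mem hF))) _
    (hF.inter_mem _ (uv_mem hF hT n).1 _ (hF.compl_mem _ (uv_mem hF hT (n + 1)).1))

/-- The terms commute with homomorphisms. -/
theorem map_term {F : Set (Set Plane)} (hF : IsProjectiveAlgebra F) {f : Set Plane → Set Plane}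
    (hinter : ∀ A ∈ F, ∀ B ∈ F, f (A ∩ B) = f A ∩ f B)
    (hcompl : ∀ A ∈ F, f Aᶜ = (f A)ᶜ)
    (hproj1 : ∀ A ∈ F, f (proj1 A) = proj1 (f A))
    (hproj2 : ∀ A ∈ F, f (proj2 A) = proj2 (f A))
    (htensor : ∀ A ∈ F, ∀ B ∈ F, A ⊆ axisX → B ⊆ axisY → f (tensor A B) = tensor (f A) (f B))
    {T : Set Plane} (hT : T ∈ F) (n : ℕ) : f ∅ = ∅ ∧ f (term T n) = term (f T) n := by
  have hempty : f ∅ = ∅ := by
    have h1 : f (T ∩ Tᶜ) = f T ∩ (f T)ᶜ := by
      rw [hinter T hT _ (hF.compl_mem _ hT), hcompl T hT]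
    rwa [inter_compl_self, inter_compl_self] at h1
  have huniv : f univ = univ := by
    rw [← compl_empty, hcompl _ hF.empty_mem, hempty]
  have hY : f (proj2 univ) = proj2 univ := by
    rw [hproj2 _ (univ_mem hF), huniv]
  have hYm : proj2 univ ∈ F := hF.proj2_mem _ (univ_mem hF)
  have hoff : f (off T) = off (f T) := by
    unfold off
    rw [hinter _ hT _ (hF.compl_mem _ hYm), hcompl _ hYm, hY]
  have hH := off_mem hF hT
  have huv : ∀ n, f (uv T n).1 = (uv (f T) n).1 ∧ f (uv T n).2 = (uv (f T) n).2 := by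
    intro n
    induction n with
    | zero =>
      refine ⟨?_, ?_⟩
      · show f (proj2 (off T)) = proj2 (off (f T))
        rw [hproj2 _ hH, hoff]
      · show f (proj1 (off T)) = proj1 (off (f T))
        rw [hproj1 _ hH, hoff]
    | succ n ih =>
      have hm := uv_mem hF hT n
      have h1 := hF.tensor_mem _ hm.2 _ hm.1 (uv_sub T n).2 (uv_sub T n).1
      have h2 := hF.inter_mem _ h1 _ (hF.compl_mem _ hH)
      have h3 := hF.proj2_mem _ h2
      have h4 : proj2 (tensor (uv T n).2 (uv T n).1 ∩ (off T)ᶜ) ⊆ axisY := fun p hp => hp.1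
      have h5 := hF.tensor_mem _ hm.2 _ h3 (uv_sub T n).2 h4
      have e1 : f (proj2 (tensor (uv T n).2 (uv T n).1 ∩ (off T)ᶜ)) =
          proj2 (tensor (uv (f T) n).2 (uv (f T) n).1 ∩ (off (f T))ᶜ) := by
        rw [hproj2 _ h2, hinter _ h1 _ (hF.compl_mem _ hH), hcompl _ hH, hoff,
          htensor _ hm.2 _ hm.1 (uv_sub T n).2 (uv_sub T n).1, ih.1, ih.2]
      refine ⟨e1, ?_⟩
      show f (proj1 (off T ∩ tensor (uv T n).2 (proj2 (tensor (uv T n).2 (uv T n).1 ∩
        (off T)ᶜ)))) = proj1 (off (f T) ∩ tensor (uv (f T) n).2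
          (proj2 (tensor (uv (f T) n).2 (uv (f T) n).1 ∩ (off (f T))ᶜ)))
      rw [hproj1 _ (hF.inter_mem _ hH _ h5), hinter _ hH _ h5, hoff,
        htensor _ hm.2 _ h3 (uv_sub T n).2 h4, e1, ih.2]
  refine ⟨hempty, ?_⟩
  unfold term
  have m1 := (uv_mem hF hT n).1
  have m2 := (uv_mem hF hT (n + 1)).1
  rw [hinter _ (hF.inter_mem _ hT _ hYm) _ (hF.inter_mem _ m1 _ (hF.compl_mem _ m2)),
    hinter _ hT _ hYm, hinter _ m1 _ (hF.compl_mem _ m2), hcompl _ m2, hY, (huv n).1,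
    (huv (n + 1)).1]

/-- The plane set that codes the set `A` of natural numbers: a triangle of integer points, and the
points `(0, j + 1)` for `j ∈ A`. -/
def code (A : Set ℕ) : Set Plane :=
  {p | ∃ i j : ℕ, 1 ≤ j ∧ j ≤ i ∧ p = ((i : ℝ), (j : ℝ))} ∪ {p | ∃ j ∈ A, p = (0, (j : ℝ) + 1)}

theorem mem_off_code (A : Set ℕ) (p : Plane) :
    p ∈ off (code A) ↔ ∃ i j : ℕ, 1 ≤ j ∧ j ≤ i ∧ p = ((i : ℝ), (j : ℝ)) := by
  constructor
  · rintro ⟨h1 | ⟨j, -, rfl⟩, h2⟩
    · exact h1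
    · exact absurd ⟨rfl, 0, mem_univ _⟩ h2
  · rintro ⟨i, j, h1, h2, rfl⟩
    refine ⟨Or.inl ⟨i, j, h1, h2, rfl⟩, fun h => ?_⟩
    have h3 : ((i : ℝ)) = 0 := h.1
    have h4 : i = 0 := by exact_mod_cast h3
    omega

theorem uv_code (A : Set ℕ) (n : ℕ) :
    (∀ p, p ∈ (uv (code A) n).1 ↔ ∃ j : ℕ, n + 1 ≤ j ∧ p = ((0 : ℝ), (j : ℝ))) ∧
    (∀ p, p ∈ (uv (code A) n).2 ↔ ∃ i : ℕ, n + 1 ≤ i ∧ p = ((i : ℝ), (0 : ℝ))) := by
  induction n with
  | zero =>
    refine ⟨fun p => ?_, fun p => ?_⟩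
    · constructor
      · rintro ⟨h1, x, hx⟩
        obtain ⟨i, j, h2, h3, h4⟩ := (mem_off_code A _).1 hx
        obtain ⟨-, h5⟩ := Prod.ext_iff.1 h4
        exact ⟨j, by omega, Prod.ext h1 h5⟩
      · rintro ⟨j, hj, rfl⟩
        exact ⟨rfl, (j : ℝ), (mem_off_code A _).2 ⟨j, j, by omega, le_rfl, rfl⟩⟩
    · constructor
      · rintro ⟨h1, y, hy⟩
        obtain ⟨i, j, h2, h3, h4⟩ := (mem_off_code A _).1 hy
        obtain ⟨h5, -⟩ := Prod.ext_iff.1 h4
        exact ⟨i, by omega, Prod.ext h5 h1⟩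
      · rintro ⟨i, hi, rfl⟩
        exact ⟨rfl, (i : ℝ), (mem_off_code A _).2 ⟨i, i, by omega, le_rfl, rfl⟩⟩
  | succ n ih =>
    have hten : ∀ p, p ∈ tensor (uv (code A) n).2 (uv (code A) n).1 ↔
        ∃ i j : ℕ, n + 1 ≤ i ∧ n + 1 ≤ j ∧ p = ((i : ℝ), (j : ℝ)) := by
      intro p
      constructor
      · rintro ⟨h1, h2⟩
        obtain ⟨i, hi, h3⟩ := (ih.2 _).1 h1
        obtain ⟨j, hj, h4⟩ := (ih.1 _).1 h2
        obtain ⟨h5, -⟩ := Prod.ext_iff.1 h3
        obtain ⟨-, h6⟩ := Prod.ext_iff.1 h4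
        exact ⟨i, j, hi, hj, Prod.ext h5 h6⟩
      · rintro ⟨i, j, hi, hj, rfl⟩
        exact ⟨(ih.2 _).2 ⟨i, hi, rfl⟩, (ih.1 _).2 ⟨j, hj, rfl⟩⟩
    have hU : ∀ p, p ∈ proj2 (tensor (uv (code A) n).2 (uv (code A) n).1 ∩ (off (code A))ᶜ) ↔
        ∃ j : ℕ, n + 1 + 1 ≤ j ∧ p = ((0 : ℝ), (j : ℝ)) := by
      intro p
      constructor
      · rintro ⟨h1, x, hx1, hx2⟩
        obtain ⟨i, j, hi, hj, h3⟩ := (hten _).1 hx1
        obtain ⟨h4, h5⟩ := Prod.ext_iff.1 h3
        simp only at h4 h5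
        have hij : i < j := by
          by_contra hc
          apply hx2
          rw [mem_off_code]
          exact ⟨i, j, by omega, by omega, Prod.ext h4 h5⟩
        exact ⟨j, by omega, Prod.ext h1 h5⟩
      · rintro ⟨j, hj, rfl⟩
        refine ⟨rfl, ((n + 1 : ℕ) : ℝ), (hten _).2 ⟨n + 1, j, le_rfl, by omega, rfl⟩, ?_⟩
        intro hc
        obtain ⟨i', j', h1, h2, h3⟩ := (mem_off_code A _).1 hc
        obtain ⟨h4, h5⟩ := Prod.ext_iff.1 h3
        simp only at h4 h5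
        have h6 : n + 1 = i' := by exact_mod_cast h4
        have h7 : j = j' := by exact_mod_cast h5
        omega
    refine ⟨hU, fun p => ?_⟩
    constructor
    · rintro ⟨h1, y, hy1, hy2, hy3⟩
      obtain ⟨i, j, h2, h3, h4⟩ := (mem_off_code A _).1 hy1
      obtain ⟨h5, h6⟩ := Prod.ext_iff.1 h4
      obtain ⟨j', hj', h7⟩ := (hU _).1 hy3
      obtain ⟨-, h8⟩ := Prod.ext_iff.1 h7
      simp only at h5 h6 h8
      have h9 : j = j' := by
        rw [h6] at h8
        exact_mod_cast h8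
      exact ⟨i, by omega, Prod.ext h5 h1⟩
    · rintro ⟨i, hi, rfl⟩
      refine ⟨rfl, (i : ℝ), (mem_off_code A _).2 ⟨i, i, by omega, le_rfl, rfl⟩, ?_, ?_⟩
      · exact (ih.2 _).2 ⟨i, by omega, rfl⟩
      · exact (hU _).2 ⟨i, hi, rfl⟩

theorem term_code (A : Set ℕ) (n : ℕ) : term (code A) n ≠ ∅ ↔ n ∈ A := by
  rw [← nonempty_iff_ne_empty]
  constructor
  · rintro ⟨p, ⟨h1, h2⟩, h3, h4⟩
    obtain ⟨j, hj, rfl⟩ := ((uv_code A n).1 p).1 h3
    have h5 : j = n + 1 := by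
      by_contra hc
      exact h4 (((uv_code A (n + 1)).1 _).2 ⟨j, by omega, rfl⟩)
    rcases h1 with ⟨i, j', h6, h7, h8⟩ | ⟨m, hm, h8⟩
    · obtain ⟨h9, -⟩ := Prod.ext_iff.1 h8
      simp only at h9
      have h10 : (0 : ℕ) = i := by exact_mod_cast h9
      omega
    · obtain ⟨-, h9⟩ := Prod.ext_iff.1 h8
      simp only at h9
      have h10 : j = m + 1 := by exact_mod_cast h9
      have h11 : n = m := by omega
      rw [h11]
      exact hm
  · intro hn
    refine ⟨((0 : ℝ), ((n + 1 : ℕ) : ℝ)), ⟨Or.inr ⟨n, hn, by push_cast; rfl⟩, rfl, 0, mem_univ _⟩,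
      ((uv_code A n).1 _).2 ⟨n + 1, le_rfl, rfl⟩, fun hc => ?_⟩
    obtain ⟨j, hj, h1⟩ := ((uv_code A (n + 1)).1 _).1 hc
    obtain ⟨-, h2⟩ := Prod.ext_iff.1 h1
    simp only at h2
    have h3 : n + 1 = j := by exact_mod_cast h2
    omega

/-- **No universal countable projective algebra.** For every countable family `U` of subsets of the
plane (in particular for every countable projective algebra `U`) there is a plane set `S` such that
the projective algebra generated by `S` is countable and is not isomorphic to a projective algebra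
that is contained in `U`. -/
theorem result (U : Set (Set Plane)) (hUc : U.Countable) :
    ∃ S : Set Plane, IsProjectiveAlgebra (generated S) ∧ (generated S).Countable ∧
      ¬ EmbedsIn (generated S) U := by
  by_contra hcon
  push Not at hcon
  have h1 : ∀ A : Set ℕ, ∃ T ∈ U, ∀ n, term T n ≠ ∅ ↔ n ∈ A := by
    intro A
    obtain ⟨G, hGU, -, f, hf, -, hinter, hcompl, hproj1, hproj2, htensor⟩ :=
      hcon (code A) (isProjectiveAlgebra_generated _) (countable_generated _)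
    have hF := isProjectiveAlgebra_generated (code A)
    have hT := mem_generated (code A)
    refine ⟨f (code A), hGU (hf.mapsTo hT), fun n => ?_⟩
    obtain ⟨h2, h3⟩ := map_term hF hinter hcompl hproj1 hproj2 htensor hT n
    rw [← term_code A n, ← h3, not_iff_not]
    constructor
    · intro h
      rw [← h2] at h
      exact hf.injOn (term_mem hF hT n) hF.empty_mem h
    · intro h
      rw [h, h2]
  choose T hT hTA using h1
  have hinj : Function.Injective fun A : Set ℕ => (⟨T A, hT A⟩ : U) := by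
    intro A B hAB
    have h2 : T A = T B := congrArg Subtype.val hAB
    ext n
    rw [← hTA A n, ← hTA B n, h2]
  have hcU : Countable U := hUc.to_subtype
  have hcs : Countable (Set ℕ) := hinj.countable
  obtain ⟨g, hg⟩ := hcs.exists_injective_nat
  exact Function.cantor_injective g hg

end Pool.Agent.Results.MP_3db952_lc.NoUniversalAlgebra
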